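import Mathlib
import Pool.Agent.H.MP_37c966_co.A

namespace Pool.Agent.Results.MP_37c966_co.DistTwo

open SimpleGraph

/-- `H` has an `F`-free colouring with `k` colours: no colour class contains an induced copy of `F`. -/
def FreeCol {α V : Type} (F : SimpleGraph α) (H : SimpleGraph V) (k : ℕ) : Prop :=
  ∃ c : V → Fin k, ∀ (e : F ↪g H) (i : Fin k), ¬ ∀ v, c (e v) = i

/-- `F` and `G` are chromatically related. -/
def Related {α β : Type} (F : SimpleGraph α) (G : SimpleGraph β) : Prop :=
  ∀ n : ℕ, 1 ≤ n → ∃ (V : Type) (_ : Fintype V) (H : SimpleGraph V),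
    IsLeast {k | FreeCol F H k} n ∧ IsLeast {k | FreeCol G H k} n

theorem result (α β : Type) [Fintype α] [Fintype β] (F : SimpleGraph α) (G : SimpleGraph β)
    (hα : 2 ≤ Fintype.card α) (hβ : 2 ≤ Fintype.card β) :
    ∃ (γ : Type) (_ : Fintype γ) (R : SimpleGraph γ), 2 ≤ Fintype.card γ ∧
      Related F R ∧ Related R G :=
  Pool.Agent.H.MP_37c966_co.final F G hα hβ

end Pool.Agent.Results.MP_37c966_co.DistTwo
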